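import Pool.Agent.Zk22.NG.Final
import Pool.Agent.Zk22.HG.E

/-! # Orbits of nilpotent groups of automorphisms -/

set_option autoImplicit false

open Finset

namespace Pool.Agent.Zk22.NG

open Pool.Agent.N326.AK Pool.Agent.Zk22.HG

lemma lin_step {n : ℕ} (g : (Fin n → ℤ) ≃ₗ[ℤ] (Fin n → ℤ)) (r : ℚ) {a b c d : Fin n → ℤ}
    (h : ∀ i, (a i : ℚ) + r * b i = c i + r * d i) : ∀ i, (g a i : ℚ) + r * g b i = g c i + r * g d i := by
  have hr : (r.num : ℚ) = r * r.den := (Rat.mul_den_eq_num r).symm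
  have hd : (r.den : ℚ) ≠ 0 := by exact_mod_cast r.den_nz
  have h1 : (r.den : ℤ) • a + r.num • b = (r.den : ℤ) • c + r.num • d := by
    funext i
    have h2 : ((r.den : ℤ) * a i + r.num * b i : ℤ) = ((r.den : ℤ) * c i + r.num * d i : ℤ) := by
      have h3 : (((r.den : ℤ) * a i + r.num * b i : ℤ) : ℚ) = (((r.den : ℤ) * c i + r.num * d i : ℤ) : ℚ) := by
        push_cast
        rw [hr]
        have := h i
        calc (r.den : ℚ) * a i + r * r.den * b i = r.den * ((a i : ℚ) + r * b i) := by ring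
          _ = r.den * ((c i : ℚ) + r * d i) := by rw [this]
          _ = _ := by ring
      exact_mod_cast h3
    simpa using h2
  have h2 := congrArg g h1
  rw [map_add, map_add, map_smul, map_smul, map_smul, map_smul] at h2
  intro i
  have h3 := congrFun h2 i
  simp only [Pi.add_apply, Pi.smul_apply, smul_eq_mul] at h3
  have h4 : ((r.den : ℤ) * g a i + r.num * g b i : ℚ) = ((r.den : ℤ) * g c i + r.num * g d i : ℚ) := by
    exact_mod_cast h3
  push_cast at h4
  rw [hr] at h4
  apply mul_left_cancel₀ hd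
  calc (r.den : ℚ) * ((g a i : ℚ) + r * g b i) = r.den * g a i + r * r.den * g b i := by ring
    _ = r.den * g c i + r * r.den * g d i := h4
    _ = _ := by ring

theorem nil_orbit {c : ℕ} {S : Finset ℚ} {ε : ℝ} (hε : 0 < ε) (hS : 2 ^ c * (1 + ε) / ε ≤ S.card) {n : ℕ}
    (G : Subgroup ((Fin n → ℤ) ≃ₗ[ℤ] (Fin n → ℤ))) (hfin : Finite G) (hG : Group.IsNilpotent G)
    (hc : Group.nilpotencyClass G ≤ c + 1) (x y : Fin n → ℤ) :
    (orbitCard G (-1) x y : ℝ) ≤ (bigOrbit S G x y : ℝ) ^ (1 + ε) := by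
  classical
  have : Fintype G := Fintype.ofFinite G
  obtain ⟨X, hX⟩ : ∃ X : G → Fin n → ℤ, X = fun g => g.1 x := ⟨_, rfl⟩
  obtain ⟨Y, hY⟩ : ∃ Y : G → Fin n → ℤ, Y = fun g => g.1 y := ⟨_, rfl⟩
  obtain ⟨M, hM⟩ := exists_good' X Y (dirs S)
  obtain ⟨f, hf⟩ : ∃ f : G → ℤ × ℤ, f = fun g => pt (X g) (Y g) M 1 := ⟨_, rfl⟩
  obtain ⟨A, hA⟩ : ∃ A : Finset (ℤ × ℤ), A = univ.image f := ⟨_, rfl⟩
  have hpv : ∀ r : ℚ, (1, r) ∈ dirs S → ∀ u v : G, pv r (f u) = pv r (f v) ↔ word r (X u) (Y u) = word r (X v) (Y v) := by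
    intro r hr u v
    have e2 : ∀ g : G, pv r (f g) = lin (1, r) (pt (X g) (Y g) M 1) := by
      intro g
      rw [hf]
      unfold lin pv
      simp
    rw [e2, e2, e1, e1]
    exact hM _ hr u v
  have hS1 : ∀ r ∈ S, ((1 : ℚ), r) ∈ dirs S := by
    intro r hr
    unfold dirs
    simp only [mem_insert, mem_image]
    exact Or.inr (Or.inr ⟨r, hr, rfl⟩)
  have hm1 : ((1 : ℚ), (-1 : ℚ)) ∈ dirs S := by simp [dirs]
  have hproj : ∀ r : ℚ, (1, r) ∈ dirs S → (proj r A).card = orbitCard G r x y := by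
    intro r hr
    rw [hA]
    unfold proj orbitCard
    rw [image_image]
    refine ncard_range_eq _ _ fun i j => ?_
    have h3 := hpv r hr i j
    rw [hX, hY] at h3
    exact h3
  have hYeq : ∀ u v : G, ((f u).2 : ℚ) = (f v).2 ↔ Y u = Y v := by
    intro u v
    have e2 : ∀ g : G, ((f g).2 : ℚ) = lin (0, 1) (pt (X g) (Y g) M 1) := by
      intro g
      rw [hf]
      unfold lin
      simp
    rw [e2, e2, hM (0, 1) (by simp [dirs]) u v]
    unfold wd
    constructor
    · intro h4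
      funext k
      have := congrFun h4 k
      simp only [zero_mul, zero_add, one_mul] at this
      exact_mod_cast this
    · intro h4
      rw [h4]
      funext k
      simp
  have hinf : (projInf A).card = orbitInf G y := by
    rw [hA]
    unfold projInf orbitInf
    rw [image_image]
    refine ncard_range_eq _ _ fun i j => ?_
    have h3 := hYeq i j
    rw [hY] at h3
    exact h3
  have h2 : big S A = bigOrbit S G x y := by
    unfold big bigOrbit
    rw [hinf]
    congr 1
    exact Finset.sup_congr rfl fun r hr => hproj r (hS1 r hr)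
  have hXm : ∀ g u : G, X (g * u) = g.1 (X u) := by
    intro g u
    rw [hX]
    rfl
  have hYm : ∀ g u : G, Y (g * u) = g.1 (Y u) := by
    intro g u
    rw [hY]
    rfl
  have hr : ∀ r : ℚ, (1, r) ∈ dirs S → ∀ g u v : G, pv r (f u) = pv r (f v) → pv r (f (g * u)) = pv r (f (g * v)) := by
    intro r hr g u v huv
    rw [hpv r hr] at huv ⊢
    rw [hXm, hXm, hYm, hYm]
    funext i
    exact lin_step g.1 r (fun i => congrFun huv i) i
  have hp : ∀ g u v : G, f u = f v → f (g * u) = f (g * v) := by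
    intro g u v huv
    have h3 := hr (-1) hm1 g u v (by rw [huv])
    have h4 : Y u = Y v := (hYeq u v).1 (by rw [huv])
    have h5 : ((f (g * u)).2 : ℚ) = (f (g * v)).2 := (hYeq _ _).2 (by rw [hYm, hYm, h4])
    have h6 : (f (g * u)).2 = (f (g * v)).2 := by exact_mod_cast h5
    unfold pv at h3
    rw [h5] at h3
    have h7 : ((f (g * u)).1 : ℚ) = (f (g * v)).1 := by linarith
    exact Prod.ext (by exact_mod_cast h7) h6
  have h3 := conj_of (A := A) (c := c) hε hS fun _ => nil_abs hc (a := f 1) (by rw [hA]; exact mem_image_of_mem _ (mem_univ _)) f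
    (by intro b; rw [hA]; simp) (fun r hrS => hr r (hS1 r hrS)) hp
  rw [← hproj (-1) hm1, ← h2]
  refine le_trans ?_ h3
  exact_mod_cast card_image_le

end Pool.Agent.Zk22.NG
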