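import Pool.Agent.Zk22.NG.Four
import Pool.Agent.Zk43.NG.Count

/-! # The counting inequality for nilpotent groups -/

set_option autoImplicit false

open Finset Polynomial

namespace Pool.Agent.Zk22.NG

/-- the value of a projection -/
def pv (r : ℚ) (p : ℤ × ℤ) : ℚ := (p.1 : ℚ) + r * p.2

/-- the polynomial of a point -/
noncomputable def pol (p : ℤ × ℤ) : ℂ[X] := C (p.1 : ℂ) + C (p.2 : ℂ) * X

lemma pol_deg (p : ℤ × ℤ) : (pol p).natDegree ≤ 1 := by
  unfold pol
  exact natDegree_add_le_of_degree_le (by rw [natDegree_C]; exact zero_le_one)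
    ((natDegree_C_mul_le _ _).trans natDegree_X_le)

lemma pol_eval (p : ℤ × ℤ) (s : ℚ) : (pol p).eval (s : ℂ) = ((pv s p : ℚ) : ℂ) := by
  unfold pol pv
  simp only [eval_add, eval_C, eval_mul, eval_X]
  push_cast
  ring

lemma pol_inj {p q : ℤ × ℤ} (h : pol p = pol q) : p = q := by
  have h0 := congrArg (fun f : ℂ[X] => f.coeff 0) h
  have h1 := congrArg (fun f : ℂ[X] => f.coeff 1) h
  unfold pol at h0 h1
  simp only [coeff_add, coeff_C_zero, coeff_C_mul, coeff_X_zero, coeff_X_one, mul_zero, add_zero, mul_one] at h0 h1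
  have h2 : (C (p.1 : ℂ) : ℂ[X]).coeff 1 = 0 := coeff_C_of_ne_zero one_ne_zero
  have h3 : (C (q.1 : ℂ) : ℂ[X]).coeff 1 = 0 := coeff_C_of_ne_zero one_ne_zero
  rw [h2, h3, zero_add, zero_add] at h1
  exact Prod.ext (by exact_mod_cast h0) (by exact_mod_cast h1)

variable {G : Type} [Group G] [Finite G]

theorem chain [Group.IsNilpotent G] {c : ℕ} (hc : Group.nilpotencyClass G ≤ c + 1) (S : Finset ℚ) (f : G → ℤ × ℤ)
    (hr : ∀ r ∈ S, ∀ g u v : G, pv r (f u) = pv r (f v) → pv r (f (g * u)) = pv r (f (g * v)))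
    (H : ℚ → Subgroup G) (K : Subgroup G)
    (hH : ∀ r ∈ S, ∀ g, g ∈ H r ↔ pv r (f g) = pv r (f 1)) (hK : ∀ g, g ∈ K ↔ f g = f 1) :
    (∏ s ∈ S, Nat.card (H s)) * Nat.card K ^ (2 ^ c) ≤ Nat.card G ^ (2 ^ c) * Nat.card K ^ S.card := by
  classical
  have hKH : ∀ s ∈ S, K ≤ H s := by
    intro s hs g hg
    rw [hH s hs, (hK g).1 hg]
  refine count S H K (2 ^ c) hKH fun Q hKQ hne => ?_
  by_contra hcon
  push Not at hcon
  have hcls : Group.nilpotencyClass Q ≤ c + 1 := (Subgroup.nilpotencyClass_le Q).trans hc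
  have hP := all c Q hcls 1 Unit (fun _ g => pol (f g)) (fun _ _ => pol_deg _) S (fun s => (H s).subgroupOf Q)
    (by
      intro s hs h hh _ g
      rw [pol_eval, pol_eval]
      have h1 := (hH s hs _).1 (Subgroup.mem_subgroupOf.1 hh)
      have h2 := hr s hs g h 1 h1
      rw [mul_one] at h2
      rw [Subgroup.coe_mul, h2])
    (by
      intro T hT hTc
      by_contra hW
      obtain ⟨W, hWdef⟩ : ∃ W : Subgroup Q, W = ⨆ s ∈ S \ T, (H s).subgroupOf Q := ⟨_, rfl⟩
      rw [← hWdef] at hW
      have hWK : K.subgroupOf Q ⊔ W ≠ ⊤ := by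
        rcases (S \ T).eq_empty_or_nonempty with h0 | ⟨s, hs⟩
        · intro h1
          rw [hWdef, h0] at h1
          simp only [notMem_empty, iSup_false, iSup_bot, sup_bot_eq] at h1
          exact hne (le_antisymm hKQ (Subgroup.subgroupOf_eq_top.1 h1))
        · intro h1
          apply hW
          rw [← h1]
          refine (sup_eq_right.2 ?_).symm
          rw [hWdef]
          refine le_trans ?_ (le_iSup₂ (f := fun s (_ : s ∈ S \ T) => (H s).subgroupOf Q) s hs)
          exact Subgroup.comap_mono (hKH s (mem_sdiff.1 hs).1)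
      obtain ⟨s, hs, hs2⟩ := hcon T hT (hTc.trans (by rw [one_mul])) ((K.subgroupOf Q ⊔ W).map Q.subtype)
        (by
          rw [Subgroup.map_sup]
          refine le_trans ?_ le_sup_left
          rw [Subgroup.subgroupOf_map_subtype]
          exact le_inf le_rfl hKQ)
        (by
          refine lt_of_le_of_ne ?_ ?_
          · intro x hx
            obtain ⟨y, _, rfl⟩ := Subgroup.mem_map.1 hx
            exact y.2
          · intro h1
            apply hWK
            rw [eq_top_iff]
            intro y _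
            have h2 : (y : G) ∈ (K.subgroupOf Q ⊔ W).map Q.subtype := by
              rw [h1]
              exact y.2
            obtain ⟨z, hz, hzy⟩ := Subgroup.mem_map.1 h2
            have h3 : z = y := Subtype.ext hzy
            rwa [← h3])
      apply hs2
      intro x hx
      refine Subgroup.mem_map.2 ⟨⟨x, hx.2⟩, ?_, rfl⟩
      refine (le_sup_right : W ≤ K.subgroupOf Q ⊔ W) ?_
      rw [hWdef]
      exact le_iSup₂ (f := fun s (_ : s ∈ S \ T) => (H s).subgroupOf Q) s hs (Subgroup.mem_subgroupOf.2 hx.1))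
  refine hne (le_antisymm hKQ fun x hx => ?_)
  rw [hK]
  have h1 := hP () 1 ⟨x, hx⟩
  rw [one_mul] at h1
  exact pol_inj h1

end Pool.Agent.Zk22.NG
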