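import Pool.Agent.Zk22.NG.Chain
import Pool.Agent.Zk85.NG.App
import Pool.Agent.N326.AK.Equiv

/-! # Sets on which a nilpotent group acts transitively -/

set_option autoImplicit false

open Finset

namespace Pool.Agent.Zk22.NG

open Pool.Agent.N326.AK

/-- A nilpotent group of class at most `c` acts transitively on `A` by permutations of `A` which respect
the fibres of the projections with slopes in `S`. -/
def NilHomogeneous (c : ℕ) (S : Finset ℚ) (A : Finset (ℤ × ℤ)) : Prop :=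
  ∃ G : Subgroup (Equiv.Perm A), Group.IsNilpotent G ∧ Group.nilpotencyClass G ≤ c ∧
    (∀ a b : A, ∃ g ∈ G, g a = b) ∧
    ∀ g ∈ G, ∀ u v : A, ∀ r ∈ S, (u.1.1 : ℚ) + r * u.1.2 = v.1.1 + r * v.1.2 →
      ((g u).1.1 : ℚ) + r * (g u).1.2 = (g v).1.1 + r * (g v).1.2

variable {c : ℕ} {S : Finset ℚ} {A : Finset (ℤ × ℤ)}

theorem nil_abs {G : Type} [Group G] [Finite G] [Group.IsNilpotent G] (hc : Group.nilpotencyClass G ≤ c + 1)
    {a : ℤ × ℤ} (ha : a ∈ A) (f : G → ℤ × ℤ) (hf : ∀ b, b ∈ A ↔ ∃ g, f g = b)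
    (hr : ∀ r ∈ S, ∀ g u v : G, pv r (f u) = pv r (f v) → pv r (f (g * u)) = pv r (f (g * v)))
    (hp : ∀ g u v : G, f u = f v → f (g * u) = f (g * v)) :
    A.card ^ S.card ≤ A.card ^ (2 ^ c) * ∏ r ∈ S, (proj r A).card := by
  classical
  obtain ⟨K, hK⟩ : ∃ K : Subgroup G, ∀ g, g ∈ K ↔ f g = f 1 := by
    refine ⟨{ carrier := {g | f g = f 1}
              one_mem' := rfl
              mul_mem' := fun {x y} hx hy => by
                have := hp x y 1 hy
                rw [mul_one] at this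
                exact this.trans hx
              inv_mem' := fun {x} hx => by
                have := hp x⁻¹ x 1 hx
                rw [mul_one, inv_mul_cancel] at this
                exact this.symm }, fun g => Iff.rfl⟩
  have hH : ∀ r : ℚ, ∃ Hr : Subgroup G, r ∈ S → ∀ g, g ∈ Hr ↔ pv r (f g) = pv r (f 1) := by
    intro r
    by_cases hrS : r ∈ S
    · refine ⟨{ carrier := {g | pv r (f g) = pv r (f 1)}
                one_mem' := rfl
                mul_mem' := fun {x y} hx hy => by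
                  have := hr r hrS x y 1 hy
                  rw [mul_one] at this
                  exact this.trans hx
                inv_mem' := fun {x} hx => by
                  have := hr r hrS x⁻¹ x 1 hx
                  rw [mul_one, inv_mul_cancel] at this
                  exact this.symm }, fun _ g => Iff.rfl⟩
    · exact ⟨⊤, fun h => absurd h hrS⟩
  choose H hH using hH
  have h1 := chain hc S f hr H K (fun r hr => hH r hr) hK
  exact Pool.Agent.Zk85.NG.app A a ha S f hf hr hp (2 ^ c) H K (fun r hr => hH r hr) hK h1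

theorem nil_ineq (hA : A.Nonempty) (h : NilHomogeneous (c + 1) S A) :
    A.card ^ S.card ≤ A.card ^ (2 ^ c) * ∏ r ∈ S, (proj r A).card := by
  classical
  obtain ⟨G, hG, hc, htr, hcomp⟩ := h
  obtain ⟨a, ha⟩ := hA
  obtain ⟨f, hf⟩ : ∃ f : G → ℤ × ℤ, ∀ g, f g = (g.1 ⟨a, ha⟩).1 := ⟨_, fun g => rfl⟩
  have hmul : ∀ g u : G, f (g * u) = (g.1 (u.1 ⟨a, ha⟩)).1 := by
    intro g u
    rw [hf]
    rfl
  have hr : ∀ r ∈ S, ∀ g u v : G, pv r (f u) = pv r (f v) → pv r (f (g * u)) = pv r (f (g * v)) := by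
    intro r hr g u v huv
    rw [hmul, hmul]
    rw [hf, hf] at huv
    exact hcomp g.1 g.2 _ _ r hr huv
  have hp : ∀ g u v : G, f u = f v → f (g * u) = f (g * v) := by
    intro g u v huv
    rw [hmul, hmul]
    rw [hf, hf] at huv
    rw [Subtype.ext huv]
  refine nil_abs hc ha f ?_ hr hp
  intro b
  constructor
  · intro hb
    obtain ⟨g, hg, hgb⟩ := htr ⟨a, ha⟩ ⟨b, hb⟩
    refine ⟨⟨g, hg⟩, ?_⟩
    rw [hf]
    exact congrArg Subtype.val hgb
  · rintro ⟨g, rfl⟩
    rw [hf]
    exact (g.1 ⟨a, ha⟩).2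

lemma proj_le (r : ℚ) (hr : r ∈ S) : (proj r A).card ≤ big S A :=
  (le_sup (f := fun r => (proj r A).card) hr).trans (le_max_right _ _)

theorem conj_of {ε : ℝ} (hε : 0 < ε) (hS : 2 ^ c * (1 + ε) / ε ≤ S.card)
    (h : A.Nonempty → A.card ^ S.card ≤ A.card ^ (2 ^ c) * ∏ r ∈ S, (proj r A).card) :
    (A.card : ℝ) ≤ (big S A : ℝ) ^ (1 + ε) := by
  classical
  rcases A.eq_empty_or_nonempty with h0 | hA
  · rw [h0, card_empty, Nat.cast_zero]
    positivity
  have h1 := h hA
  have h2 : ∏ r ∈ S, (proj r A).card ≤ big S A ^ S.card := by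
    rw [← prod_const]
    exact prod_le_prod' fun r hr => proj_le r hr
  have h3 : (A.card : ℝ) ^ S.card ≤ (A.card : ℝ) ^ (2 ^ c) * (big S A : ℝ) ^ S.card := by
    exact_mod_cast h1.trans (Nat.mul_le_mul_left _ h2)
  have hN : (1 : ℝ) ≤ A.card := by exact_mod_cast hA.card_pos
  have hb : (1 : ℝ) ≤ big S A := by
    have : 0 < (projInf A).card := (hA.image _).card_pos
    exact_mod_cast this.trans_le (le_max_left _ _)
  have hE : (1 : ℝ) ≤ 2 ^ c := one_le_pow₀ (by norm_num)
  rw [div_le_iff₀ hε] at hS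
  have hlt : (2 : ℝ) ^ c < S.card := by
    by_contra hcon
    push Not at hcon
    nlinarith
  have hle : 2 ^ c ≤ S.card := by exact_mod_cast hlt.le
  have h4 : (A.card : ℝ) ^ (S.card - 2 ^ c) ≤ (big S A : ℝ) ^ S.card := by
    have h5 : (A.card : ℝ) ^ S.card = (A.card : ℝ) ^ (2 ^ c) * (A.card : ℝ) ^ (S.card - 2 ^ c) := by
      rw [← pow_add, Nat.add_sub_cancel' hle]
    rw [h5] at h3
    exact le_of_mul_le_mul_left h3 (by positivity)
  have hd : (0 : ℝ) < (S.card : ℝ) - 2 ^ c := by linarith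
  have hcast : ((S.card - 2 ^ c : ℕ) : ℝ) = (S.card : ℝ) - 2 ^ c := by
    rw [Nat.cast_sub hle]
    push_cast
    ring
  have h6 : (A.card : ℝ) ≤ (big S A : ℝ) ^ ((S.card : ℝ) / ((S.card : ℝ) - 2 ^ c)) := by
    have h7 := Real.rpow_le_rpow (by positivity) h4 (inv_nonneg.2 hd.le)
    rw [← Real.rpow_natCast (A.card : ℝ) (S.card - 2 ^ c), ← Real.rpow_natCast (big S A : ℝ) S.card,
      ← Real.rpow_mul (by positivity), ← Real.rpow_mul (by positivity), hcast, mul_inv_cancel₀ hd.ne',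
      Real.rpow_one] at h7
    rw [div_eq_mul_inv]
    exact h7
  refine h6.trans (Real.rpow_le_rpow_of_exponent_le hb ?_)
  rw [div_le_iff₀ hd]
  nlinarith

theorem nil_conj {ε : ℝ} (hε : 0 < ε) (hS : 2 ^ c * (1 + ε) / ε ≤ S.card) (h : NilHomogeneous (c + 1) S A) :
    (A.card : ℝ) ≤ (big S A : ℝ) ^ (1 + ε) := conj_of hε hS fun hA => nil_ineq hA h

end Pool.Agent.Zk22.NG
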