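import Pool.Agent.Zk22.NG.Key

/-! # Fourier components along the centre -/

set_option autoImplicit false

open Finset Polynomial

namespace Pool.Agent.Zk22.NG

noncomputable instance centerCommGroup (Q : Type) [Group Q] : CommGroup (Subgroup.center Q) :=
  { (inferInstance : Group (Subgroup.center Q)) with
    mul_comm := fun a b => Subtype.ext (Subgroup.mem_center_iff.1 b.2 a) }

variable {Q : Type} [Group Q] [Fintype Q] {I : Type}

open Classical in
/-- Fourier component along the centre -/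
noncomputable def four (p : I → Q → ℂ[X]) (ψ : AddChar (Additive (Subgroup.center Q)) ℂ) (i : I) (g : Q) : ℂ[X] :=
  ∑ z : Subgroup.center Q, C (ψ (Additive.ofMul z)) * p i (g * z)

lemma four_deg {p : I → Q → ℂ[X]} {D : ℕ} (h : ∀ i g, (p i g).natDegree ≤ D)
    (ψ : AddChar (Additive (Subgroup.center Q)) ℂ) (i : I) (g : Q) : (four p ψ i g).natDegree ≤ D := by
  unfold four
  refine natDegree_sum_le_of_forall_le _ _ fun z _ => ?_
  exact (natDegree_C_mul_le _ _).trans (h _ _)

lemma four_mul (p : I → Q → ℂ[X]) (ψ : AddChar (Additive (Subgroup.center Q)) ℂ) (i : I) (g : Q)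
    (w : Subgroup.center Q) : four p ψ i (g * w) = C (ψ (Additive.ofMul w⁻¹)) * four p ψ i g := by
  classical
  unfold four
  rw [mul_sum]
  refine Fintype.sum_equiv (Equiv.mulLeft w) _ _ fun z => ?_
  have h1 : ψ (Additive.ofMul w⁻¹) * ψ (Additive.ofMul (w * z)) = ψ (Additive.ofMul z) := by
    rw [← AddChar.map_add_eq_mul, ← ofMul_mul, inv_mul_cancel_left]
  simp only [Equiv.coe_mulLeft]
  rw [← mul_assoc, ← C_mul, h1, Subgroup.coe_mul, mul_assoc]

lemma four_eval {p : I → Q → ℂ[X]} {h : Q} {s : ℂ}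
    (hh : ∀ i g, (p i (g * h)).eval s = (p i g).eval s)
    (ψ : AddChar (Additive (Subgroup.center Q)) ℂ) (i : I) (g : Q) :
    (four p ψ i (g * h)).eval s = (four p ψ i g).eval s := by
  classical
  unfold four
  rw [eval_finsetSum, eval_finsetSum]
  refine sum_congr rfl fun z _ => ?_
  have hz : g * h * (z : Q) = g * z * h := by
    rw [mul_assoc, mul_assoc, Subgroup.mem_center_iff.1 z.2 h]
  rw [eval_mul, eval_mul, hz, hh]

lemma sum_four (p : I → Q → ℂ[X]) (i : I) (g : Q) :
    ∑ ψ : AddChar (Additive (Subgroup.center Q)) ℂ, four p ψ i g =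
      C (Nat.card (Subgroup.center Q) : ℂ) * p i g := by
  classical
  unfold four
  rw [sum_comm]
  have h1 : ∀ z : Subgroup.center Q, ∑ ψ : AddChar (Additive (Subgroup.center Q)) ℂ,
      C (ψ (Additive.ofMul z)) * p i (g * z) = if z = 1 then C (Nat.card (Subgroup.center Q) : ℂ) * p i g else 0 := by
    intro z
    rw [← sum_mul, ← map_sum]
    have h2 := AddChar.sum_apply_eq_ite (Additive.ofMul z)
    rw [h2]
    by_cases hz : z = 1
    · rw [hz, if_pos rfl, ofMul_one, if_pos rfl]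
      simp [Nat.card_eq_fintype_card]
    · rw [if_neg hz, if_neg (by simpa using hz)]
      simp
  rw [sum_congr rfl fun z _ => h1 z, sum_ite_eq' univ (1 : Subgroup.center Q)]
  simp

lemma of_four {p : I → Q → ℂ[X]} {h : Q} (i : I) (g : Q)
    (hh : ∀ ψ, four p ψ i (g * h) = four p ψ i g) : p i (g * h) = p i g := by
  classical
  have h1 := sum_four p i (g * h)
  rw [sum_congr rfl fun ψ _ => hh ψ, sum_four] at h1
  refine (mul_left_cancel₀ ?_ h1).symm
  rw [Ne, C_eq_zero]
  exact_mod_cast Nat.card_pos.ne'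

lemma norm_one (ψ : AddChar (Additive (Subgroup.center Q)) ℂ) (w : Subgroup.center Q) :
    C (ψ (Additive.ofMul w)) * cj (C (ψ (Additive.ofMul w))) = 1 := by
  rw [cj_C, ← C_mul, Complex.mul_conj, Complex.normSq_eq_norm_sq, AddChar.norm_apply]
  simp

/-- the product, invariant under the centre -/
noncomputable def pr (p : I → Q → ℂ[X])
    (t : AddChar (Additive (Subgroup.center Q)) ℂ × I × I × Q) (x : Q ⧸ Subgroup.center Q) : ℂ[X] :=
  four p t.1 t.2.1 x.out * cj (four p t.1 t.2.2.1 (t.2.2.2 * x.out))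

lemma pr_mk (p : I → Q → ℂ[X]) (t : AddChar (Additive (Subgroup.center Q)) ℂ × I × I × Q) (g : Q) :
    pr p t (g : Q ⧸ Subgroup.center Q) = four p t.1 t.2.1 g * cj (four p t.1 t.2.2.1 (t.2.2.2 * g)) := by
  unfold pr
  obtain ⟨w, hw⟩ := QuotientGroup.mk_out_eq_mul (Subgroup.center Q) g
  rw [hw, ← mul_assoc, four_mul, four_mul, cj_mul]
  have h1 := norm_one t.1 w⁻¹
  calc C (t.1 (Additive.ofMul w⁻¹)) * four p t.1 t.2.1 g *
        (cj (C (t.1 (Additive.ofMul w⁻¹))) * cj (four p t.1 t.2.2.1 (t.2.2.2 * g)))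
      = (C (t.1 (Additive.ofMul w⁻¹)) * cj (C (t.1 (Additive.ofMul w⁻¹)))) *
        (four p t.1 t.2.1 g * cj (four p t.1 t.2.2.1 (t.2.2.2 * g))) := by ring
    _ = _ := by rw [h1, one_mul]

lemma cj_deg (p : ℂ[X]) : (cj p).natDegree ≤ p.natDegree := natDegree_map_le

lemma pr_deg {p : I → Q → ℂ[X]} {D : ℕ} (h : ∀ i g, (p i g).natDegree ≤ D)
    (t : AddChar (Additive (Subgroup.center Q)) ℂ × I × I × Q) (x : Q ⧸ Subgroup.center Q) :
    (pr p t x).natDegree ≤ 2 * D := by
  unfold pr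
  refine natDegree_mul_le.trans ?_
  have h1 := four_deg h t.1 t.2.1 x.out
  have h2 := (cj_deg _).trans (four_deg h t.1 t.2.2.1 (t.2.2.2 * x.out))
  omega

lemma pr_eval {p : I → Q → ℂ[X]} {h : Q} {s : ℚ}
    (hh : ∀ i g, (p i (g * h)).eval (s : ℂ) = (p i g).eval (s : ℂ))
    (t : AddChar (Additive (Subgroup.center Q)) ℂ × I × I × Q) (x : Q ⧸ Subgroup.center Q) :
    (pr p t (x * (h : Q ⧸ Subgroup.center Q))).eval (s : ℂ) = (pr p t x).eval (s : ℂ) := by
  induction x using QuotientGroup.induction_on with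
  | H g =>
    rw [← QuotientGroup.mk_mul, pr_mk, pr_mk, eval_mul, eval_mul, cj_eval, cj_eval, ← mul_assoc,
      four_eval hh, four_eval hh]

/-- the statement for a group of class at most `c + 1` -/
def P (Q : Type) [Group Q] (c : ℕ) : Prop := ∀ (D : ℕ) (I : Type) (p : I → Q → ℂ[X]),
  (∀ i g, (p i g).natDegree ≤ D) → ∀ (R : Finset ℚ) (H : ℚ → Subgroup Q),
  (∀ s ∈ R, ∀ h ∈ H s, ∀ i g, (p i (g * h)).eval (s : ℂ) = (p i g).eval (s : ℂ)) →
  (∀ T ⊆ R, T.card ≤ D * 2 ^ c → (⨆ s ∈ R \ T, H s) = ⊤) → ∀ i g h, p i (g * h) = p i g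

theorem stepE {D : ℕ} {p : I → Q → ℂ[X]} (hdeg : ∀ i g, (p i g).natDegree ≤ D) (R : Finset ℚ) (H : ℚ → Subgroup Q)
    (hH : ∀ s ∈ R, ∀ h ∈ H s, ∀ i g, (p i (g * h)).eval (s : ℂ) = (p i g).eval (s : ℂ))
    (hgen : ∀ T ⊆ R, T.card ≤ D → (⨆ s ∈ R \ T, H s) = ⊤)
    (hE : ∀ t (x k : Q ⧸ Subgroup.center Q), pr p t (x * k) = pr p t x) : ∀ i g h, p i (g * h) = p i g := by
  classical
  intro i g h'
  refine of_four i g fun ψ => ?_
  refine component (F := four p ψ) (four_deg hdeg ψ) R H (fun s hs k hk => four_eval (hH s hs k hk) ψ) hgen ?_ i g h'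
  intro i j g b k
  have h1 := hE (ψ, i, j, b * g⁻¹) (g : Q ⧸ Subgroup.center Q) (k : Q ⧸ Subgroup.center Q)
  rw [← QuotientGroup.mk_mul, pr_mk, pr_mk] at h1
  simp only [inv_mul_cancel_right, ← mul_assoc] at h1
  exact h1

theorem step (c : ℕ) (h : P (Q ⧸ Subgroup.center Q) c) : P Q (c + 1) := by
  classical
  intro D I p hdeg R H hH hgen
  have hE := h (2 * D) _ (pr p) (pr_deg hdeg) R (fun s => (H s).map (QuotientGroup.mk' (Subgroup.center Q)))
    (by
      intro s hs x hx t y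
      obtain ⟨k, hk, rfl⟩ := Subgroup.mem_map.1 hx
      exact pr_eval (hH s hs k hk) t y)
    (by
      intro T hT hTc
      have h1 := hgen T hT (hTc.trans (le_of_eq (by ring)))
      have h2 := congrArg (Subgroup.map (QuotientGroup.mk' (Subgroup.center Q))) h1
      rw [Subgroup.map_top_of_surjective _ (QuotientGroup.mk'_surjective _)] at h2
      rw [← h2, Subgroup.map_iSup]
      exact iSup_congr fun s => (Subgroup.map_iSup _ _).symm)
  exact stepE hdeg R H hH (fun T hT hTc => hgen T hT (hTc.trans (Nat.le_mul_of_pos_right _ (by positivity)))) hE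

theorem base [Subsingleton (Q ⧸ Subgroup.center Q)] : P Q 0 := by
  intro D I p hdeg R H hH hgen
  refine stepE hdeg R H hH (fun T hT hTc => hgen T hT (by simpa using hTc)) fun t x k => ?_
  rw [Subsingleton.elim (x * k) x]

theorem all : ∀ (c : ℕ) (Q : Type) [Group Q] [Finite Q] [Group.IsNilpotent Q],
    Group.nilpotencyClass Q ≤ c + 1 → P Q c := by
  intro c
  induction c with
  | zero =>
    intro Q _ _ _ h
    have := Fintype.ofFinite Q
    have h1 : Subsingleton (Q ⧸ Subgroup.center Q) := by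
      rw [← Group.nilpotencyClass_zero_iff_subsingleton, Group.nilpotencyClass_quotient_center]
      omega
    exact base
  | succ c ih =>
    intro Q _ _ _ h
    have := Fintype.ofFinite Q
    refine step c (ih _ ?_)
    rw [Group.nilpotencyClass_quotient_center]
    omega

end Pool.Agent.Zk22.NG
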