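import Mathlib

/-! # Nilpotent groups: if the stabilisers of all but few points of a polynomial curve generate, they fix the curve -/

set_option autoImplicit false

open Finset Polynomial

namespace Pool.Agent.Zk22.NG

/-- the conjugate polynomial -/
noncomputable def cj (p : ℂ[X]) : ℂ[X] := p.map (starRingEnd ℂ)

lemma cj_eval (p : ℂ[X]) (s : ℚ) : (cj p).eval (s : ℂ) = starRingEnd ℂ (p.eval (s : ℂ)) := by
  unfold cj
  have h : (s : ℂ) = starRingEnd ℂ (s : ℂ) := (map_ratCast (starRingEnd ℂ) s).symm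
  conv_lhs => rw [h]
  rw [eval_map, eval₂_at_apply]

lemma cj_ne {p : ℂ[X]} (h : p ≠ 0) : cj p ≠ 0 := by
  unfold cj
  exact (Polynomial.map_ne_zero_iff (starRingEnd ℂ).injective).2 h

lemma cj_mul (p q : ℂ[X]) : cj (p * q) = cj p * cj q := by
  unfold cj
  exact Polynomial.map_mul _

lemma cj_C (a : ℂ) : cj (C a) = C (starRingEnd ℂ a) := by
  unfold cj
  exact Polynomial.map_C _

/-- roots of unity -/
lemma root_of_pow_eq {n : ℕ} (hn : 0 < n) {a b : ℂ[X]} (h : a ^ n = b ^ n) :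
    ∃ c : ℂ, a = C c * b := by
  have hprim : IsPrimitiveRoot (Complex.exp (2 * Real.pi * Complex.I / n)) n := Complex.isPrimitiveRoot_exp n hn.ne'
  have hprim' : IsPrimitiveRoot (C (Complex.exp (2 * Real.pi * Complex.I / n))) n :=
    hprim.map_of_injective (f := (C : ℂ →+* ℂ[X])) C_injective
  have h1 := hprim'.pow_sub_pow_eq_prod_sub_mul a b hn
  rw [h, sub_self] at h1
  obtain ⟨η, hη, h2⟩ := prod_eq_zero_iff.1 h1.symm
  rw [mem_nthRootsFinset hn] at hη
  have hu : IsUnit η := IsUnit.of_pow_eq_one hη hn.ne'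
  obtain ⟨c, _, hc⟩ := Polynomial.isUnit_iff.1 hu
  exact ⟨c, by rw [hc]; exact sub_eq_zero.1 h2⟩

/-- one component -/
lemma component {Q : Type} [Group Q] [Finite Q] {D : ℕ} {I : Type} {F : I → Q → ℂ[X]}
    (hdeg : ∀ i g, (F i g).natDegree ≤ D) (R : Finset ℚ) (H : ℚ → Subgroup Q)
    (hH : ∀ s ∈ R, ∀ h ∈ H s, ∀ i g, (F i (g * h)).eval (s : ℂ) = (F i g).eval (s : ℂ))
    (hgen : ∀ T ⊆ R, T.card ≤ D → (⨆ s ∈ R \ T, H s) = ⊤)
    (hE : ∀ i j g b h, F i (g * h) * cj (F j (b * h)) = F i g * cj (F j b)) :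
    ∀ i g h, F i (g * h) = F i g := by
  classical
  by_cases h0 : ∀ i g, F i g = 0
  · intro i g h
    rw [h0, h0]
  push Not at h0
  obtain ⟨i0, b0, hb0⟩ := h0
  obtain ⟨T, hT⟩ : ∃ T : Finset ℚ, T = R.filter fun t : ℚ => (F i0 b0).eval (t : ℂ) = 0 := ⟨_, rfl⟩
  have hTcard : T.card ≤ D := by
    have h1 : (T.image fun t : ℚ => (t : ℂ)) ⊆ (F i0 b0).roots.toFinset := by
      intro w hw
      obtain ⟨t, ht, rfl⟩ := mem_image.1 hw
      rw [hT, mem_filter] at ht
      rw [Multiset.mem_toFinset, mem_roots hb0]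
      exact ht.2
    rw [← card_image_of_injective T (f := fun t : ℚ => (t : ℂ)) Rat.cast_injective]
    exact (card_le_card h1).trans ((Multiset.toFinset_card_le _).trans ((card_roots' _).trans (hdeg _ _)))
  have hTR : T ⊆ R := by rw [hT]; exact filter_subset _ _
  -- the stabiliser
  obtain ⟨St, hSt⟩ : ∃ St : Subgroup Q, ∀ h, h ∈ St ↔ ∀ i g, F i (g * h) = F i g := by
    refine ⟨{ carrier := {h | ∀ i g, F i (g * h) = F i g}
              one_mem' := fun i g => by rw [mul_one]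
              mul_mem' := fun {a b} ha hb i g => by rw [← mul_assoc, hb, ha]
              inv_mem' := fun {a} ha i g => by
                have := ha i (g * a⁻¹)
                rw [inv_mul_cancel_right] at this
                exact this.symm }, fun h => Iff.rfl⟩
  have key : ∀ t ∈ R \ T, H t ≤ St := by
    intro t ht h hh
    rw [hSt]
    rw [mem_sdiff] at ht
    have ht2 : (F i0 b0).eval (t : ℂ) ≠ 0 := by
      intro h3
      exact ht.2 (by rw [hT, mem_filter]; exact ⟨ht.1, h3⟩)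
    obtain ⟨n, hn, hpow⟩ : ∃ n : ℕ, 0 < n ∧ h ^ n = 1 :=
      ⟨orderOf h, orderOf_pos h, pow_orderOf_eq_one h⟩
    have hit : ∀ k : ℕ, F i0 (b0 * h ^ k) * cj (F i0 (b0 * h)) ^ k = F i0 b0 * cj (F i0 b0) ^ k := by
      intro k
      induction k with
      | zero => simp
      | succ k ih =>
        have h4 := hE i0 i0 (b0 * h ^ k) b0 h
        rw [pow_succ h k, ← mul_assoc b0, pow_succ, pow_succ]
        calc F i0 (b0 * h ^ k * h) * (cj (F i0 (b0 * h)) ^ k * cj (F i0 (b0 * h)))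
            = (F i0 (b0 * h ^ k * h) * cj (F i0 (b0 * h))) * cj (F i0 (b0 * h)) ^ k := by ring
          _ = (F i0 (b0 * h ^ k) * cj (F i0 b0)) * cj (F i0 (b0 * h)) ^ k := by rw [h4]
          _ = (F i0 (b0 * h ^ k) * cj (F i0 (b0 * h)) ^ k) * cj (F i0 b0) := by ring
          _ = F i0 b0 * cj (F i0 b0) ^ k * cj (F i0 b0) := by rw [ih]
          _ = F i0 b0 * (cj (F i0 b0) ^ k * cj (F i0 b0)) := by ring
    have h5 := hit n
    rw [hpow, mul_one] at h5
    have h6 := mul_left_cancel₀ hb0 h5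
    obtain ⟨c, hc⟩ := root_of_pow_eq hn h6
    have h7 : ∀ i g, F i (g * h) * C c = F i g := by
      intro i g
      have h8 := hE i i0 g b0 h
      rw [hc, ← mul_assoc] at h8
      exact mul_right_cancel₀ (cj_ne hb0) h8
    have hc1 : c = 1 := by
      have h8 := congrArg (fun q : ℂ[X] => q.eval (t : ℂ)) (h7 i0 b0)
      simp only [eval_mul, eval_C] at h8
      rw [hH t ht.1 h hh] at h8
      exact mul_left_cancel₀ ht2 (by rw [h8, mul_one])
    intro i g
    have h8 := h7 i g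
    rw [hc1, C_1, mul_one] at h8
    exact h8
  have htop : (⊤ : Subgroup Q) ≤ St := by
    rw [← hgen T hTR hTcard]
    exact iSup₂_le key
  intro i g h
  exact (hSt h).1 (htop (Subgroup.mem_top h)) i g

end Pool.Agent.Zk22.NG
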